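import Pool.Agent.H86.BT.Defs

/-! Part M of the project BT (helper86): an invariant mean. -/

set_option autoImplicit false

open Set Filter Topology

namespace Pool.Agent.H6.BT

noncomputable section

/-- Cesaro means -/
def ces (u : ℕ → ℝ) (n : ℕ) : ℝ := (∑ i ∈ Finset.range (n + 1), u i) / ((n : ℝ) + 1)

/-- boundedness -/
def Bd (u : ℕ → ℝ) : Prop := ∃ C : ℝ, ∀ i, |u i| ≤ C

/-- Banach limit -/
def B (u : ℕ → ℝ) : ℝ := limUnder ((hyperfilter ℕ : Ultrafilter ℕ) : Filter ℕ) (ces u)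

lemma ces_abs {u : ℕ → ℝ} {C : ℝ} (h : ∀ i, |u i| ≤ C) (n : ℕ) : |ces u n| ≤ C := by
  unfold ces
  have hn : (0 : ℝ) < (n : ℝ) + 1 := by positivity
  rw [abs_div, abs_of_pos hn, div_le_iff₀ hn]
  calc |∑ i ∈ Finset.range (n + 1), u i| ≤ ∑ i ∈ Finset.range (n + 1), |u i| :=
        Finset.abs_sum_le_sum_abs _ _
    _ ≤ ∑ i ∈ Finset.range (n + 1), C := Finset.sum_le_sum fun i _ => h i
    _ = C * ((n : ℝ) + 1) := by simp; ring

lemma B_tendsto {u : ℕ → ℝ} (h : Bd u) :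
    Tendsto (ces u) ((hyperfilter ℕ : Ultrafilter ℕ) : Filter ℕ) (𝓝 (B u)) := by
  obtain ⟨C, hC⟩ := h
  have hk : IsCompact (Icc (-C) C) := isCompact_Icc
  have := hk.ultrafilter_le_nhds' ((hyperfilter ℕ : Ultrafilter ℕ).map (ces u)) (by
    rw [Ultrafilter.mem_map]
    refine Filter.Eventually.of_forall fun n => ?_
    exact abs_le.mp (ces_abs hC n))
  obtain ⟨x, _, hx⟩ := this
  have h2 : Tendsto (ces u) ((hyperfilter ℕ : Ultrafilter ℕ) : Filter ℕ) (𝓝 x) := hx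
  exact tendsto_nhds_limUnder ⟨x, h2⟩

lemma B_eq_of {u : ℕ → ℝ} {x : ℝ} (h : Tendsto (ces u) ((hyperfilter ℕ : Ultrafilter ℕ) : Filter ℕ) (𝓝 x)) :
    B u = x := h.limUnder_eq

lemma B_add {u v : ℕ → ℝ} (hu : Bd u) (hv : Bd v) : B (fun i => u i + v i) = B u + B v := by
  apply B_eq_of
  have : ces (fun i => u i + v i) = fun n => ces u n + ces v n := by
    funext n
    simp [ces, Finset.sum_add_distrib, add_div]
  rw [this]
  exact (B_tendsto hu).add (B_tendsto hv)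

lemma B_const (c : ℝ) : B (fun _ => c) = c := by
  apply B_eq_of
  have : ces (fun _ => c) = fun _ => c := by
    funext n
    have hn : ((n : ℝ) + 1) ≠ 0 := by positivity
    simp [ces]
    field_simp
  rw [this]
  exact tendsto_const_nhds

lemma B_nonneg {u : ℕ → ℝ} (hu : Bd u) (h : ∀ i, 0 ≤ u i) : 0 ≤ B u := by
  refine ge_of_tendsto' (B_tendsto hu) fun n => ?_
  unfold ces
  have : 0 ≤ ∑ i ∈ Finset.range (n + 1), u i := Finset.sum_nonneg fun i _ => h i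
  positivity

lemma B_le {u : ℕ → ℝ} {C : ℝ} (hu : Bd u) (h : ∀ i, |u i| ≤ C) : |B u| ≤ C := by
  refine le_of_tendsto' ((B_tendsto hu).abs) fun n => ces_abs h n

lemma B_shift {u : ℕ → ℝ} (hu : Bd u) : B (fun i => u (i + 1)) = B u := by
  apply B_eq_of
  obtain ⟨C, hC⟩ := hu
  have h1 : Tendsto (fun n => ces (fun i => u (i + 1)) n - ces u n) atTop (𝓝 0) := by
    have h2 : ∀ n, |ces (fun i => u (i + 1)) n - ces u n| ≤ 2 * C / ((n : ℝ) + 1) := by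
      intro n
      have hn : (0 : ℝ) < (n : ℝ) + 1 := by positivity
      have : ces (fun i => u (i + 1)) n - ces u n = (u (n + 1) - u 0) / ((n : ℝ) + 1) := by
        unfold ces
        rw [← sub_div]
        congr 1
        rw [← Finset.sum_sub_distrib]
        exact Finset.sum_range_sub u (n + 1)
      rw [this, abs_div, abs_of_pos hn]
      gcongr
      calc |u (n + 1) - u 0| ≤ |u (n + 1)| + |u 0| := abs_sub _ _
        _ ≤ C + C := add_le_add (hC _) (hC _)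
        _ = 2 * C := by ring
    refine squeeze_zero_norm (a := fun n : ℕ => 2 * C / ((n : ℝ) + 1)) (fun n => by
      rw [Real.norm_eq_abs]; exact h2 n) ?_
    have h3 : Tendsto (fun n : ℕ => (n : ℝ) + 1) atTop atTop :=
      tendsto_atTop_add_const_right _ _ tendsto_natCast_atTop_atTop
    exact h3.const_div_atTop _
  have h4 := (h1.mono_left Nat.hyperfilter_le_atTop).add (B_tendsto ⟨C, hC⟩)
  simpa using h4

lemma Bd_shift {u : ℕ → ℝ} (hu : Bd u) (k : ℕ) : Bd (fun i => u (i + k)) := by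
  obtain ⟨C, hC⟩ := hu
  exact ⟨C, fun i => hC _⟩

lemma B_shift' {u : ℕ → ℝ} (hu : Bd u) (k : ℕ) : B (fun i => u (i + k)) = B u := by
  induction k with
  | zero => rfl
  | succ k ih =>
    rw [← ih, ← B_shift (Bd_shift hu k)]
    congr 1
    funext i
    congr 1
    ring

section main

variable {X : Type} (h t : Equiv.Perm X) (𝓕 : Ultrafilter X)

open Classical in
/-- the indicator of `t^-a h^b x ∈ A` along the ultrafilter -/
def uu (A : Set X) (a b : ℕ) : ℝ := if ((t⁻¹) ^ a * h ^ b : Equiv.Perm X) ⁻¹' A ∈ 𝓕 then 1 else 0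

lemma uu_nonneg (A : Set X) (a b : ℕ) : 0 ≤ uu h t 𝓕 A a b := by
  unfold uu; split_ifs <;> norm_num

lemma uu_abs (A : Set X) (a b : ℕ) : |uu h t 𝓕 A a b| ≤ 1 := by
  unfold uu; split_ifs <;> norm_num

lemma uu_Bd (A : Set X) (a : ℕ) : Bd (uu h t 𝓕 A a) := ⟨1, uu_abs h t 𝓕 A a⟩

lemma uu_Bd2 (A : Set X) : Bd (fun a => B (uu h t 𝓕 A a)) :=
  ⟨1, fun a => B_le (uu_Bd h t 𝓕 A a) (uu_abs h t 𝓕 A a)⟩

/-- the mean -/
def mu (A : Set X) : ℝ := B (fun a => B (uu h t 𝓕 A a))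

lemma mu_nonneg (A : Set X) : 0 ≤ mu h t 𝓕 A :=
  B_nonneg (uu_Bd2 h t 𝓕 A) fun a => B_nonneg (uu_Bd h t 𝓕 A a) (uu_nonneg h t 𝓕 A a)

lemma mu_univ : mu h t 𝓕 univ = 1 := by
  have : (fun a => B (uu h t 𝓕 univ a)) = fun _ => (1 : ℝ) := by
    funext a
    have : uu h t 𝓕 univ a = fun _ => (1 : ℝ) := by
      funext b
      unfold uu
      rw [preimage_univ]
      exact if_pos Filter.univ_mem
    rw [this, B_const]
  rw [mu, this, B_const]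

lemma mu_zero {A : Set X} (hA : ∀ a b : ℕ, (((t⁻¹) ^ a * h ^ b : Equiv.Perm X) ⁻¹' A)ᶜ ∈ 𝓕) :
    mu h t 𝓕 A = 0 := by
  have : (fun a => B (uu h t 𝓕 A a)) = fun _ => (0 : ℝ) := by
    funext a
    have : uu h t 𝓕 A a = fun _ => (0 : ℝ) := by
      funext b
      unfold uu
      rw [if_neg]
      exact Ultrafilter.compl_mem_iff_notMem.mp (hA a b)
    rw [this, B_const]
  rw [mu, this, B_const]

lemma uu_add {A C : Set X} (hd : Disjoint A C) (a b : ℕ) :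
    uu h t 𝓕 (A ∪ C) a b = uu h t 𝓕 A a b + uu h t 𝓕 C a b := by
  unfold uu
  rw [preimage_union]
  have hU : (((t⁻¹) ^ a * h ^ b : Equiv.Perm X) ⁻¹' A) ∪ (((t⁻¹) ^ a * h ^ b : Equiv.Perm X) ⁻¹' C) ∈ 𝓕 ↔
      (((t⁻¹) ^ a * h ^ b : Equiv.Perm X) ⁻¹' A) ∈ 𝓕 ∨ (((t⁻¹) ^ a * h ^ b : Equiv.Perm X) ⁻¹' C) ∈ 𝓕 :=
    Ultrafilter.union_mem_iff
  have hdd : Disjoint (((t⁻¹) ^ a * h ^ b : Equiv.Perm X) ⁻¹' A)
      (((t⁻¹) ^ a * h ^ b : Equiv.Perm X) ⁻¹' C) := hd.preimage _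
  by_cases h1 : ((t⁻¹) ^ a * h ^ b : Equiv.Perm X) ⁻¹' A ∈ 𝓕
  · have h2 : ((t⁻¹) ^ a * h ^ b : Equiv.Perm X) ⁻¹' C ∉ 𝓕 := by
      intro h2
      have := Filter.inter_mem h1 h2
      rw [hdd.inter_eq] at this
      exact 𝓕.empty_notMem this
    rw [if_pos (hU.mpr (Or.inl h1)), if_pos h1, if_neg h2]; norm_num
  · by_cases h2 : ((t⁻¹) ^ a * h ^ b : Equiv.Perm X) ⁻¹' C ∈ 𝓕
    · rw [if_pos (hU.mpr (Or.inr h2)), if_neg h1, if_pos h2]; norm_num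
    · rw [if_neg (by rw [hU]; tauto), if_neg h1, if_neg h2]; norm_num

lemma mu_add {A C : Set X} (hd : Disjoint A C) :
    mu h t 𝓕 (A ∪ C) = mu h t 𝓕 A + mu h t 𝓕 C := by
  unfold mu
  rw [← B_add (uu_Bd2 h t 𝓕 A) (uu_Bd2 h t 𝓕 C)]
  congr 1
  funext a
  rw [← B_add (uu_Bd h t 𝓕 A a) (uu_Bd h t 𝓕 C a)]
  congr 1
  funext b
  exact uu_add h t 𝓕 hd a b

variable {h t}

lemma conj_pow {m : ℕ} (hth : t * h * t⁻¹ = h ^ m) (a : ℕ) :
    t ^ a * h * (t⁻¹) ^ a = h ^ (m ^ a) := by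
  induction a with
  | zero => simp
  | succ a ih =>
    rw [pow_succ' t a, pow_succ (t⁻¹) a]
    calc t * t ^ a * h * ((t⁻¹) ^ a * t⁻¹) = t * (t ^ a * h * (t⁻¹) ^ a) * t⁻¹ := by
          simp only [mul_assoc]
      _ = t * h ^ (m ^ a) * t⁻¹ := by rw [ih]
      _ = (t * h * t⁻¹) ^ (m ^ a) := by rw [_root_.conj_pow]
      _ = h ^ (m ^ (a + 1)) := by rw [hth, ← pow_mul, pow_succ, mul_comm]

lemma conj_pow' {m : ℕ} (hth : t * h * t⁻¹ = h ^ m) (a n : ℕ) :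
    t ^ a * h ^ n * (t⁻¹) ^ a = h ^ (n * m ^ a) := by
  have h1 : (t⁻¹) ^ a = (t ^ a)⁻¹ := by simp
  have := conj_pow hth a
  rw [h1] at this ⊢
  rw [← _root_.conj_pow, this, ← pow_mul, mul_comm]

lemma key_h {m : ℕ} (hth : t * h * t⁻¹ = h ^ m) (a b : ℕ) :
    h * ((t⁻¹) ^ a * h ^ b) = (t⁻¹) ^ a * h ^ (b + m ^ a) := by
  have h2 := conj_pow hth a
  have : (t⁻¹) ^ a * t ^ a = 1 := by simp
  calc h * ((t⁻¹) ^ a * h ^ b) = ((t⁻¹) ^ a * t ^ a) * h * ((t⁻¹) ^ a * h ^ b) := by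
        rw [this, one_mul]
    _ = (t⁻¹) ^ a * (t ^ a * h * (t⁻¹) ^ a) * h ^ b := by simp only [mul_assoc]
    _ = (t⁻¹) ^ a * h ^ (m ^ a) * h ^ b := by rw [h2]
    _ = (t⁻¹) ^ a * h ^ (b + m ^ a) := by rw [mul_assoc, ← pow_add, add_comm]

lemma mu_inv_h {m : ℕ} (hth : t * h * t⁻¹ = h ^ m) (A : Set X) :
    mu h t 𝓕 (h ⁻¹' A) = mu h t 𝓕 A := by
  unfold mu
  congr 1
  funext a
  rw [← B_shift' (uu_Bd h t 𝓕 A a) (m ^ a)]
  congr 1
  funext b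
  unfold uu
  rw [← key_h hth a b]
  rfl

lemma mu_inv_t (A : Set X) : mu h t 𝓕 (t ⁻¹' A) = mu h t 𝓕 A := by
  unfold mu
  rw [← B_shift (uu_Bd2 h t 𝓕 (t ⁻¹' A))]
  congr 1
  funext a
  congr 1
  funext b
  unfold uu
  have : ((t⁻¹) ^ a * h ^ b : Equiv.Perm X) = t * ((t⁻¹) ^ (a + 1) * h ^ b) := by
    rw [pow_succ' (t⁻¹) a]
    simp [mul_assoc]
  rw [this]
  rfl

lemma mu_single (hc : ∀ A : Set X, A.Finite → Aᶜ ∈ 𝓕) (x : X) : mu h t 𝓕 {x} = 0 := by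
  refine mu_zero h t 𝓕 fun a b => hc _ ?_
  exact (finite_singleton x).preimage (Equiv.injective _).injOn

lemma mu_fix {m : ℕ} (hm : 0 < m) (hth : t * h * t⁻¹ = h ^ m)
    (hf : ∀ n : ℕ, 0 < n → {x | (h ^ n) x ≠ x} ∈ 𝓕) (n : ℕ) (hn : 0 < n) :
    mu h t 𝓕 {x | (h ^ n) x = x} = 0 := by
  refine mu_zero h t 𝓕 fun a b => ?_
  have h1 := hf (n * m ^ a) (by positivity)
  refine Filter.mem_of_superset h1 fun y hy => ?_
  simp only [mem_compl_iff, mem_preimage, mem_ofPred_eq] at hy ⊢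
  intro hc
  apply hy
  have e : h ^ n * ((t⁻¹) ^ a * h ^ b) = ((t⁻¹) ^ a * h ^ b) * h ^ (n * m ^ a) := by
    have h2 := conj_pow' hth a n
    have : (t⁻¹) ^ a * t ^ a = 1 := by simp
    calc h ^ n * ((t⁻¹) ^ a * h ^ b) = ((t⁻¹) ^ a * t ^ a) * h ^ n * ((t⁻¹) ^ a * h ^ b) := by
          rw [this, one_mul]
      _ = (t⁻¹) ^ a * (t ^ a * h ^ n * (t⁻¹) ^ a) * h ^ b := by simp only [mul_assoc]
      _ = (t⁻¹) ^ a * h ^ (n * m ^ a) * h ^ b := by rw [h2]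
      _ = ((t⁻¹) ^ a * h ^ b) * h ^ (n * m ^ a) := by
          simp only [mul_assoc, ← pow_add, add_comm]
  have e2 : (h ^ n) (((t⁻¹) ^ a * h ^ b) y) = ((t⁻¹) ^ a * h ^ b) ((h ^ (n * m ^ a)) y) := by
    rw [← Equiv.Perm.mul_apply, e, Equiv.Perm.mul_apply]
  rw [e2] at hc
  exact (Equiv.injective _) hc

end main

lemma exists_ultra {X : Type} (h : Equiv.Perm X)
    (hf : ∀ n : ℕ, 0 < n → {x | (h ^ n) x ≠ x}.Infinite) :
    ∃ 𝓕 : Ultrafilter X, (∀ A : Set X, A.Finite → Aᶜ ∈ 𝓕) ∧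
      ∀ n : ℕ, 0 < n → {x | (h ^ n) x ≠ x} ∈ 𝓕 := by
  let f : {n : ℕ // 0 < n} → Filter X := fun n => cofinite ⊓ 𝓟 {x | (h ^ (n : ℕ)) x ≠ x}
  have : Nonempty {n : ℕ // 0 < n} := ⟨⟨1, one_pos⟩⟩
  have hfix : ∀ (n k : ℕ) (x : X), (h ^ n) x = x → (h ^ (n * k)) x = x := by
    intro n k x hx
    rw [pow_mul]
    exact Function.IsFixedPt.perm_pow hx k
  have hd : Directed (· ≥ ·) f := by
    intro n k
    refine ⟨⟨n.1 * k.1, Nat.mul_pos n.2 k.2⟩, ?_, ?_⟩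
    · refine inf_le_inf_left _ (principal_mono.mpr fun x hx => ?_)
      simp only [mem_ofPred_eq] at hx ⊢
      exact fun hc => hx (hfix _ _ _ hc)
    · refine inf_le_inf_left _ (principal_mono.mpr fun x hx => ?_)
      simp only [mem_ofPred_eq] at hx ⊢
      exact fun hc => hx (by rw [mul_comm]; exact hfix _ _ _ hc)
  have : NeBot (iInf f) := iInf_neBot_of_directed' hd fun n =>
    cofinite_inf_principal_neBot_iff.mpr (hf n.1 n.2)
  refine ⟨Ultrafilter.of (iInf f), fun A hA => ?_, fun n hn => ?_⟩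
  · apply Ultrafilter.of_le (iInf f)
    refine (iInf_le f ⟨1, one_pos⟩) ?_
    exact Filter.mem_inf_of_left hA.compl_mem_cofinite
  · apply Ultrafilter.of_le (iInf f)
    refine (iInf_le f ⟨n, hn⟩) ?_
    exact Filter.mem_inf_of_right (mem_principal_self _)

theorem M : Pool.Agent.H86.BT.R_M := by
  intro X h t m hth hf
  have hm : 0 < m := by
    rcases Nat.eq_zero_or_pos m with h0 | h0
    · exfalso
      rw [h0, pow_zero, mul_inv_eq_one, mul_eq_left] at hth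
      have := (hf 1 one_pos).nonempty
      obtain ⟨x, hx⟩ := this
      simp [hth] at hx
    · exact h0
  obtain ⟨𝓕, h1, h2⟩ := exists_ultra h hf
  exact ⟨{
    μ := mu h t 𝓕
    nonneg := mu_nonneg h t 𝓕
    univ := mu_univ h t 𝓕
    add := fun A C hd => mu_add h t 𝓕 hd
    single := fun x => mu_single 𝓕 h1 x
    inv_h := fun A => mu_inv_h 𝓕 hth A
    inv_t := fun A => mu_inv_t 𝓕 A
    fix := fun n hn => mu_fix 𝓕 hm hth h2 n hn }⟩

end

end Pool.Agent.H6.BT
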